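import Mathlib
import Pool.Agent.Helper84.FX.StX

/-!
Project FX, module QS: the identity behind `W → Q`.
-/

set_option autoImplicit false

namespace Pool.Agent.Helper62.FX

open Set Pool.Agent.Helper84.FX Pool.Agent.Helper72.FX

private lemma qs_key (X Y Z v k r n s m x y w t : ℂ) (hk : k = t * X * Y - Z ^ 2)
    (hKF : Y - X = -(v * k)) :
    s * (m * Y + r * y) * (1 + t * (s * (m * X + r * x))) -
        (s * (m * X + r * x) + (s * (m * Z + r * w)) ^ 2) =
      s * (-(m * k * (v - r * n - s * m)) +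
        r * (-(m * n * k) + (y - x) + s * (t * m * X * y + t * m * Y * x +
          t * r * x * y - 2 * m * Z * w - r * w ^ 2))) := by
  linear_combination (s * m) * hKF - (s * m) * (s * m) * hk

theorem hQS : StKF → StQS := by
  intro hKF
  have key : ∀ z : Fin 10 → ℂ,
      (SM z).2.2.1 * (1 + (SM z).1 * (SM z).2.1) - ((SM z).2.1 + (SM z).2.2.2 ^ 2) =
        z 5 * (-(z 6 * kappa (z 0) (z 1) (z 2) * EE1 z) + z 3 * EE2 z) := by
    intro z
    exact qs_key (kx (z 0) (z 1) (z 2)) (ky (z 0) (z 1) (z 2)) (kz (z 0) (z 1) (z 2))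
      (nu (z 0) (z 1) (z 2)) (kappa (z 0) (z 1) (z 2)) (z 3) (z 4) (z 5) (z 6) (z 7) (z 8) (z 9)
      (z 2) rfl (hKF (z 0) (z 1) (z 2))
  refine ⟨?_, ?_⟩
  · rintro U z ⟨hU, h1, h2⟩
    refine ⟨hU, ?_⟩
    have h := key z
    rw [h1, h2] at h
    simp only [mul_zero, neg_zero, add_zero] at h
    exact sub_eq_zero.1 h
  · rintro U z h1 hr hs ⟨hU, hq⟩
    refine ⟨hU, h1, ?_⟩
    have h := key z
    rw [h1, sub_eq_zero.2 hq] at h
    simp only [mul_zero, neg_zero, zero_add] at h
    rcases mul_eq_zero.1 h.symm with h3 | h3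
    · exact absurd h3 hs
    · rcases mul_eq_zero.1 h3 with h4 | h4
      · exact absurd h4 hr
      · exact h4

end Pool.Agent.Helper62.FX
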