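import Mathlib
import Pool.Agent.Helper65.FX.St

/-!
Project FX, module WDS: words of flows are smooth, and their derivative at the parameter zero.
-/

set_option autoImplicit false

namespace Pool.Agent.Helper62.FX

open Pool.Agent.Helper65.FX Pool.Agent.Helper87.FX
open Set Topology Metric
open scoped ContDiff

theorem hWDS : StWDS := by
  intro V _ _ _ Y N
  induction N with
  | zero =>
    intro e he
    refine ⟨contDiff_snd, fun x => rfl, fun c x hx => hx, fun y c => ?_⟩
    have h : (fun c : Fin 0 → ℂ => wd 0 e c y) = fun _ => y := rfl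
    rw [h, fderiv_fun_const]
    simp
  | succ N ih =>
    intro e he
    obtain ⟨h1, h2, h3, h4⟩ := ih (fun k => e k.succ) (fun k => he k.succ)
    have hg0 : ContDiff ℝ ∞ (fun z : (Fin (N + 1) → ℂ) × V => (fun k : Fin N => z.1 k.succ)) := by
      rw [contDiff_pi]
      intro k
      exact (contDiff_apply ℝ ℂ k.succ).comp contDiff_fst
    have hg1 : ContDiff ℝ ∞ (fun z : (Fin (N + 1) → ℂ) × V => e 0 (z.1 0) z.2) :=
      (he 0).sm.comp (((contDiff_apply ℝ ℂ (0 : Fin (N + 1))).comp contDiff_fst).prodMk
        contDiff_snd)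
    refine ⟨h1.comp (hg0.prodMk hg1), ?_, ?_, ?_⟩
    · intro x
      change wd N (fun k => e k.succ) (fun k => (0 : Fin (N + 1) → ℂ) k.succ)
        (e 0 ((0 : Fin (N + 1) → ℂ) 0) x) = x
      have : e 0 ((0 : Fin (N + 1) → ℂ) 0) x = x := (he 0).zero x
      rw [this]
      exact h2 x
    · intro c x hx
      exact h3 _ _ ((he 0).pres _ x hx)
    · intro y c
      obtain ⟨W, hW⟩ : ∃ W : (Fin N → ℂ) × V → V,
        W = fun z => wd N (fun k => e k.succ) z.1 z.2 := ⟨_, rfl⟩
      obtain ⟨W', hW'⟩ : ∃ W' : (Fin N → ℂ) × V →L[ℝ] V, W' = fderiv ℝ W (0, y) := ⟨_, rfl⟩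
      have hWd : HasFDerivAt W W' (0, y) := by
        rw [hW']
        refine DifferentiableAt.hasFDerivAt ?_
        rw [hW]
        exact h1.differentiable (by simp) _
      have hd0 : HasFDerivAt (fun a : ℂ => e 0 a y) (vel (e 0) y) 0 := by
        refine DifferentiableAt.hasFDerivAt ?_
        have h5 : ContDiff ℝ ∞ (fun a : ℂ => e 0 a y) :=
          (he 0).sm.comp (contDiff_id.prodMk contDiff_const)
        exact h5.differentiable (by simp) _
      -- the inner map
      have hin1 : HasFDerivAt (fun c : Fin (N + 1) → ℂ => (fun k : Fin N => c k.succ))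
          (ContinuousLinearMap.pi fun k : Fin N =>
            (ContinuousLinearMap.proj k.succ : (Fin (N + 1) → ℂ) →L[ℝ] ℂ)) 0 := by
        rw [hasFDerivAt_pi]
        intro k
        exact (ContinuousLinearMap.proj k.succ : (Fin (N + 1) → ℂ) →L[ℝ] ℂ).hasFDerivAt
      have hin2 : HasFDerivAt (fun c : Fin (N + 1) → ℂ => e 0 (c 0) y)
          ((vel (e 0) y).comp (ContinuousLinearMap.proj 0 : (Fin (N + 1) → ℂ) →L[ℝ] ℂ)) 0 := by
        have h6 : HasFDerivAt (fun c : Fin (N + 1) → ℂ => c 0)
          (ContinuousLinearMap.proj 0 : (Fin (N + 1) → ℂ) →L[ℝ] ℂ) 0 :=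
          (ContinuousLinearMap.proj 0 : (Fin (N + 1) → ℂ) →L[ℝ] ℂ).hasFDerivAt
        exact HasFDerivAt.comp (0 : Fin (N + 1) → ℂ) (g := fun a : ℂ => e 0 a y) hd0 h6
      have hin := hin1.prodMk hin2
      have hb : ((fun k : Fin N => (0 : Fin (N + 1) → ℂ) k.succ),
          e 0 ((0 : Fin (N + 1) → ℂ) 0) y) = ((0 : Fin N → ℂ), y) := by
        refine Prod.ext rfl ?_
        exact (he 0).zero y
      have hcomp : HasFDerivAt (fun c : Fin (N + 1) → ℂ => wd (N + 1) e c y)
          (W'.comp ((ContinuousLinearMap.pi fun k : Fin N =>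
            (ContinuousLinearMap.proj k.succ : (Fin (N + 1) → ℂ) →L[ℝ] ℂ)).prod
            ((vel (e 0) y).comp
              (ContinuousLinearMap.proj 0 : (Fin (N + 1) → ℂ) →L[ℝ] ℂ)))) 0 := by
        have h7 : (fun c : Fin (N + 1) → ℂ => wd (N + 1) e c y) =
            W ∘ (fun c : Fin (N + 1) → ℂ => ((fun k : Fin N => c k.succ), e 0 (c 0) y)) := by
          rw [hW]
          rfl
        rw [h7]
        refine HasFDerivAt.comp (0 : Fin (N + 1) → ℂ) ?_ hin
        rw [hb]
        exact hWd
      rw [hcomp.fderiv]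
      -- the two parts of the derivative of W
      have hA : ∀ t : Fin N → ℂ, W' (t, 0) = ∑ k, vel (e k.succ) y (t k) := by
        intro t
        rw [← h4 y t]
        have h8 : HasFDerivAt (fun c : Fin N → ℂ => wd N (fun k => e k.succ) c y)
            (W'.comp (ContinuousLinearMap.inl ℝ (Fin N → ℂ) V)) 0 := by
          have h9 : (fun c : Fin N → ℂ => wd N (fun k => e k.succ) c y) =
              W ∘ (fun c : Fin N → ℂ => (c, y)) := by
            rw [hW]
            rfl
          rw [h9]
          exact HasFDerivAt.comp (0 : Fin N → ℂ) hWd (hasFDerivAt_prodMk_left (0 : Fin N → ℂ) y)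
        rw [h8.fderiv]
        rfl
      have hB : ∀ v : V, W' (0, v) = v := by
        intro v
        have h8 : HasFDerivAt (fun x : V => x)
            (W'.comp (ContinuousLinearMap.inr ℝ (Fin N → ℂ) V)) y := by
          have h9 : (fun x : V => x) = W ∘ (fun x : V => ((0 : Fin N → ℂ), x)) := by
            funext x
            rw [hW]
            exact (h2 x).symm
          rw [h9]
          exact HasFDerivAt.comp y hWd (hasFDerivAt_prodMk_right (0 : Fin N → ℂ) y)
        have h10 := h8.unique (hasFDerivAt_id y)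
        have h11 := congrArg (fun L : V →L[ℝ] V => L v) h10
        exact h11
      have hsplit : W' ((fun k : Fin N => c k.succ), vel (e 0) y (c 0)) =
          W' ((fun k : Fin N => c k.succ), 0) + W' (0, vel (e 0) y (c 0)) := by
        rw [← map_add]
        congr 1
        refine Prod.ext ?_ ?_
        · exact (add_zero _).symm
        · exact (zero_add _).symm
      have hval : (W'.comp ((ContinuousLinearMap.pi fun k : Fin N =>
            (ContinuousLinearMap.proj k.succ : (Fin (N + 1) → ℂ) →L[ℝ] ℂ)).prod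
            ((vel (e 0) y).comp
              (ContinuousLinearMap.proj 0 : (Fin (N + 1) → ℂ) →L[ℝ] ℂ)))) c =
          W' ((fun k : Fin N => c k.succ), vel (e 0) y (c 0)) := rfl
      rw [hval, hsplit, hA, hB, Fin.sum_univ_succ, add_comm]

end Pool.Agent.Helper62.FX
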